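import Mathlib
import Pool.Agent.Y4.P.Jobs3
import Pool.Agent.Y90.Ab3

/-!
# Project P (helper4), job JFinal3 (helper275): abstract abelian varieties
-/

set_option autoImplicit false
set_option linter.unusedSectionVars false

namespace Pool.Agent.Y275.P

open Matrix Module Pool.Agent.Y90 Pool.Agent.Y4.P Pool.Agent.W437.HC Pool.Agent.W437.HD
  Pool.Agent.TH504.CB
open Pool.Agent.W548.Odd hiding cv
open Pool.Agent.H204R3.CM (IsHodge)
open Pool.Agent.W437.HP (cK cK_mul cK_one)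

noncomputable section

variable {H T : Type} [AddCommGroup H] [Module ℚ H] [AddCommGroup T] [Module ℂ T] {per : H →+ T}

/-- Pull-backs of the elements of the ring. -/
theorem pull {H' T' : Type} [AddCommGroup H'] [Module ℚ H'] [AddCommGroup T'] [Module ℂ T']
    {per' : H' →+ T'} {κ : Type} {g : H' [⋀^κ]→ₗ[ℚ] ℚ} (hg : Pool.Agent.Y4.P.WeilRing per' κ g)
    (Φ : H →ₗ[ℚ] H') (Ψ : T →ₗ[ℂ] T') (hΦ : ∀ v, Ψ (per v) = per' (Φ v)) :
    Pool.Agent.Y4.P.WeilRing per κ (g.compLinearMap Φ) := by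
  induction hg with
  | unit f => exact Pool.Agent.Y4.P.WeilRing.unit _
  | divisor hκ f hf => exact Pool.Agent.Y4.P.WeilRing.divisor hκ _ (isHodge_comp Φ Ψ hΦ hf)
  | weil hY f hf h hh =>
    obtain ⟨Ψ', hΨ'⟩ := hh
    exact Pool.Agent.Y4.P.WeilRing.weil hY f hf (h ∘ₗ Φ) ⟨Ψ' ∘ₗ Ψ, fun v => by
      rw [LinearMap.comp_apply, hΦ, hΨ']
      rfl⟩
  | zero κ => exact Pool.Agent.Y4.P.WeilRing.zero κ
  | add f g _ _ hf hg => exact Pool.Agent.Y4.P.WeilRing.add _ _ hf hg
  | smul a f _ hf => exact Pool.Agent.Y4.P.WeilRing.smul a _ hf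
  | reindex e f _ hf => exact Pool.Agent.Y4.P.WeilRing.reindex e _ hf
  | cup f g _ _ h hh hf hg => exact Pool.Agent.Y4.P.WeilRing.cup _ _ hf hg _ fun v => hh _

/-- The elements of the ring are Hodge classes. -/
theorem wr_isHodge {κ : Type} {f : H [⋀^κ]→ₗ[ℚ] ℚ} (hf : Pool.Agent.Y4.P.WeilRing per κ f) :
    IsHodge per f := by
  induction hf with
  | @unit κ _ f =>
    refine ⟨MultilinearMap.constOfIsEmpty ℝ (fun _ => T) ((f 0 : ℚ) : ℝ), fun v => ?_,
      fun z _ u => ?_⟩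
    · rw [Subsingleton.elim v 0]
      rfl
    · rfl
  | divisor hκ f hf => exact hf
  | weil hY f hf h hh =>
    obtain ⟨Ψ, hΨ⟩ := hh
    exact isHodge_comp h Ψ hΨ hf.1
  | zero κ =>
    refine ⟨0, fun v => ?_, fun z _ u => rfl⟩
    rw [_root_.zero_apply, AlternatingMap.zero_apply, Rat.cast_zero]
  | add f g _ _ hf hg =>
    obtain ⟨ψ, h1, h2⟩ := hf
    obtain ⟨ψ', h3, h4⟩ := hg
    refine ⟨ψ + ψ', fun v => ?_, fun z hz u => ?_⟩
    · rw [_root_.add_apply, h1, h3, AlternatingMap.add_apply, Rat.cast_add]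
    · rw [_root_.add_apply, _root_.add_apply, h2 z hz, h4 z hz]
  | smul a f _ hf =>
    obtain ⟨ψ, h1, h2⟩ := hf
    refine ⟨(a : ℝ) • ψ, fun v => ?_, fun z hz u => ?_⟩
    · rw [_root_.smul_apply, h1, AlternatingMap.smul_apply, smul_eq_mul, smul_eq_mul, Rat.cast_mul]
    · rw [_root_.smul_apply, _root_.smul_apply, h2 z hz]
  | reindex e f _ hf =>
    obtain ⟨ψ, h1, h2⟩ := hf
    refine ⟨ψ.domDomCongr e, fun v => ?_, fun z hz u => ?_⟩
    · rw [MultilinearMap.domDomCongr_apply, AlternatingMap.domDomCongr_apply]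
      exact h1 _
    · rw [MultilinearMap.domDomCongr_apply, MultilinearMap.domDomCongr_apply]
      exact h2 z hz _
  | @cup κ κ' _ _ _ _ f g _ _ h hh hf hg =>
    obtain ⟨ψ, h1, h2⟩ := hf
    obtain ⟨ψ', h3, h4⟩ := hg
    have h5 : h = MultilinearMap.alternatization
        (prd f.toMultilinearMap g.toMultilinearMap) := by
      ext v
      rw [hh, MultilinearMap.alternatization_apply]
      refine Finset.sum_congr rfl fun σ _ => ?_
      rw [MultilinearMap.domDomCongr_apply, prd_apply, Units.smul_def, zsmul_eq_mul]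
      rfl
    rw [h5]
    refine isHodge_alt (prd ψ ψ') (fun v => ?_) fun z hz u => ?_
    · rw [prd_apply, prd_apply, h1, h3]
      push_cast
      rfl
    · rw [prd_apply, prd_apply, h2 z hz, h4 z hz]

/-- **The theorem for abstract abelian varieties.** -/
theorem jfinal3 (hm : ∀ (G : ℕ) (Z : Matrix (Fin G) (Fin G) ℂ), PM Z → GoodF3 Z →
      ∀ (κ : Type) [Finite κ] (f : (Fin G ⊕ Fin G → ℚ) [⋀^κ]→ₗ[ℚ] ℚ), IsHodge (perOne Z) f →
        Pool.Agent.Y4.P.WeilRing (perOne Z) κ f) (hgood : JGood3) : JFinal3 := by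
  intro H T _ _ _ _ per hX hs κ _ f
  refine ⟨fun hf => ?_, wr_isHodge⟩
  obtain ⟨a, Z, h, A, hC⟩ := exists_ppav hX
  have hsf := hgood H T per a Z A hC hs
  obtain ⟨Ψ₁, h₁⟩ := h.cht.hom hC (R := 1) (by rw [cK_one, Matrix.one_mul, Matrix.mul_one])
  obtain ⟨Ψ₂, h₂⟩ := hC.hom h.cht (R := 1) (by rw [cK_one, Matrix.one_mul, Matrix.mul_one])
  have e₁ : ∀ w, Ψ₁ (perOne Z w) = per (A.symm w) := fun w => by
    rw [h₁, one_mulVec]
    rfl
  have e₂ : ∀ v, Ψ₂ (per v) = perOne Z (A v) := fun v => by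
    have h3 := h₂ (A v)
    have h4 : (per.comp A.symm.toLinearMap.toAddMonoidHom) (A v) = per v := by
      change per (A.symm (A v)) = per v
      rw [LinearEquiv.symm_apply_apply]
    rwa [h4, one_mulVec] at h3
  have h5 : IsHodge (perOne Z) (f.compLinearMap A.symm.toLinearMap) :=
    isHodge_comp A.symm.toLinearMap Ψ₁ e₁ hf
  have h6 := hm a Z h hsf κ _ h5
  have h7 := pull (per := per) h6 A.toLinearMap Ψ₂ e₂
  have h8 : (f.compLinearMap A.symm.toLinearMap).compLinearMap A.toLinearMap = f := by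
    ext v
    rw [AlternatingMap.compLinearMap_apply, AlternatingMap.compLinearMap_apply]
    congr 1
    funext k
    exact A.symm_apply_apply (v k)
  rwa [h8] at h7

end

end Pool.Agent.Y275.P
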